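import Pool.Agent.Y228.HX.Stm

set_option autoImplicit false

/-! # HX-ZPT: a point below a cell, and the cells which do not occur -/

namespace Pool.Agent.Y688.HX

open Pool.Agent.Y228.HX Filter Topology

/-- finitely many strict inequalities are stable -/
theorem small_eps {ι : Type} [Finite ι] (α β : ι → ℚ) (h : ∀ k, 0 < α k) :
    ∃ ε : ℚ, 0 < ε ∧ ∀ k, 0 < α k + ε * β k := by
  have h1 : ∀ k, ∀ᶠ ε in 𝓝[>] (0 : ℚ), 0 < α k + ε * β k := by
    intro k
    have h2 : Tendsto (fun ε : ℚ => α k + ε * β k) (𝓝 0) (𝓝 (α k + 0 * β k)) :=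
      (continuous_const.add (continuous_id.mul continuous_const)).tendsto 0
    rw [zero_mul, add_zero] at h2
    exact (h2.eventually (lt_mem_nhds (h k))).filter_mono nhdsWithin_le_nhds
  have h3 := (eventually_all.2 h1).and (self_mem_nhdsWithin : Set.Ioi (0 : ℚ) ∈ 𝓝[>] (0 : ℚ))
  obtain ⟨ε, h4, h5⟩ := h3.exists
  exact ⟨ε, h5, h4⟩

theorem big_nat {ι : Type} [Fintype ι] (W : ι → ℚ) : ∃ n : ℕ, ∀ i, W i < n := by
  obtain ⟨n, hn⟩ := exists_nat_gt (∑ i, |W i|)
  refine ⟨n, fun i => lt_of_le_of_lt (le_trans (le_abs_self _) ?_) hn⟩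
  exact Finset.single_le_sum (f := fun i => |W i|) (fun i _ => abs_nonneg _) (Finset.mem_univ i)

variable {r N : ℕ}

/-- the linear forms at affinely independent points are independent -/
theorem forms_surj {v : Fin r → Fin N → ℕ} {J : Finset (Fin r)} (hJ : Ind v J) (z : Fin r → ℚ) :
    ∃ (w : Fin N → ℚ) (a : ℚ), ∀ j ∈ J, ∑ i, w i * (v j i : ℚ) - a = z j := by
  classical
  let f : ((Fin N → ℚ) × ℚ) →ₗ[ℚ] ({j // j ∈ J} → ℚ) :=
    { toFun := fun p j => ∑ i, p.1 i * (v j i : ℚ) - p.2
      map_add' := by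
        intro p q
        funext j
        simp only [Prod.fst_add, Prod.snd_add, Pi.add_apply, add_mul, Finset.sum_add_distrib]
        ring
      map_smul' := by
        intro c p
        funext j
        simp only [Prod.smul_fst, Prod.smul_snd, Pi.smul_apply, smul_eq_mul, RingHom.id_apply,
          mul_sub, Finset.mul_sum, mul_assoc] }
  have hsurj : Function.Surjective f := by
    rw [← LinearMap.dualMap_injective_iff]
    rw [injective_iff_map_eq_zero]
    intro φ hφ
    let c : Fin r → ℚ := fun j => if h : j ∈ J then φ (Pi.single ⟨j, h⟩ 1) else 0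
    have hc : ∀ j : {j // j ∈ J}, c j = φ (Pi.single j 1) := by
      intro j
      simp only [c, dif_pos j.2]
    have hφx : ∀ x : {j // j ∈ J} → ℚ, φ x = ∑ j, x j * c j := by
      intro x
      rw [LinearMap.pi_apply_eq_sum_univ φ x]
      refine Finset.sum_congr rfl fun j _ => ?_
      rw [smul_eq_mul, hc]
      congr 2
      funext i
      rw [Pi.single_apply]
      simp only [eq_comm]
    have hsum : ∀ g : Fin r → ℚ, ∑ j : {j // j ∈ J}, g j * c j = ∑ j, g j * c j := by
      intro g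
      rw [Finset.sum_coe_sort J (fun j => g j * c j)]
      apply Finset.sum_subset (Finset.subset_univ _)
      intro j _ hj
      simp only [c, dif_neg hj, mul_zero]
    have hrel : ∀ p : (Fin N → ℚ) × ℚ, ∑ j, (∑ i, p.1 i * (v j i : ℚ) - p.2) * c j = 0 := by
      intro p
      have h1 : φ (f p) = 0 := LinearMap.congr_fun hφ p
      rw [hφx] at h1
      rw [← hsum]
      exact h1
    have hc0 : c = 0 := by
      apply hJ
      refine ⟨fun j hj => by simp only [c, dif_neg hj], ?_, ?_⟩
      · have h1 := hrel (0, 1)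
        simp only [Pi.zero_apply, zero_mul, Finset.sum_const_zero, zero_sub, neg_mul, one_mul,
          Finset.sum_neg_distrib, neg_eq_zero] at h1
        exact h1
      · intro i
        have h1 := hrel (Pi.single i 1, 0)
        simp only [sub_zero, Pi.single_apply, ite_mul, one_mul, zero_mul, Finset.sum_ite_eq',
          Finset.mem_univ, if_true] at h1
        rw [← h1]
        exact Finset.sum_congr rfl fun j _ => mul_comm _ _
    apply LinearMap.ext
    intro x
    rw [hφx, hc0]
    simp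
  obtain ⟨p, hp⟩ := hsurj (fun j => z j)
  refine ⟨p.1, p.2, fun j hj => ?_⟩
  exact congrFun hp ⟨j, hj⟩

theorem hts_sum (v : Fin r → Fin N → ℕ) (ω : Fin r → ℕ) (ρ : ℕ) (W : Fin N → ℚ) (j : Fin r) :
    ∑ i, (W i - ρ) * (v j i : ℚ) + (hts v ω ρ j : ℚ) = ∑ i, W i * (v j i : ℚ) + ω j := by
  unfold hts
  push_cast
  simp only [sub_mul, Finset.sum_sub_distrib, Finset.mul_sum]
  ring

theorem pos_sum {v : Fin r → Fin N → ℕ} {j : Fin r} (hv : v j ≠ 0) {W : Fin N → ℚ}
    (hW : ∀ i, 0 < W i) : 0 < ∑ i, W i * (v j i : ℚ) := by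
  obtain ⟨i, hi⟩ := Function.ne_iff.1 hv
  have h1 : 0 < v j i := Nat.pos_of_ne_zero hi
  apply Finset.sum_pos'
  · intro i _
    exact mul_nonneg (hW i).le (Nat.cast_nonneg _)
  · exact ⟨i, Finset.mem_univ i, mul_pos (hW i) (by exact_mod_cast h1)⟩

theorem tt_case {v : Fin r → Fin N → ℕ} {ω : Fin r → ℕ} (hv : ∀ j, v j ≠ 0) (hG : Gen v ω)
    {I : Finset (Fin r)} (hI : TT v ω I) : ∃ (W : Fin N → ℚ) (za : ℚ), 0 < za ∧
      (∀ j ∈ I, ∑ i, W i * (v j i : ℚ) + (ω j : ℚ) = za) ∧
      ∀ j, j ∉ I → za < ∑ i, W i * (v j i : ℚ) + (ω j : ℚ) := by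
  classical
  rcases I.eq_empty_or_nonempty with rfl | ⟨j0, hj0⟩
  · refine ⟨fun _ => 1, 1 / 2, by norm_num, by simp, fun j _ => ?_⟩
    obtain ⟨i, hi⟩ := Function.ne_iff.1 (hv j)
    have h1 : 1 ≤ v j i := Nat.pos_of_ne_zero hi
    have h2 : (1 : ℚ) ≤ ∑ i, 1 * (v j i : ℚ) := by
      have h3 : ((v j i : ℕ) : ℚ) ≤ ∑ i, ((v j i : ℕ) : ℚ) :=
        Finset.single_le_sum (f := fun i => ((v j i : ℕ) : ℚ)) (fun i _ => Nat.cast_nonneg _)
          (Finset.mem_univ i)
      have h4 : (1 : ℚ) ≤ (v j i : ℚ) := by exact_mod_cast h1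
      simp only [one_mul]
      linarith
    have h3 : (0 : ℚ) ≤ (ω j : ℚ) := Nat.cast_nonneg _
    linarith
  · obtain ⟨w, a, hw, ha, haI⟩ := hI 1
    let y : Fin r → ℚ := fun j => ∑ i, w i * (v j i : ℚ) + (ω j : ℚ)
    let J : Finset (Fin r) := Finset.univ.filter fun j => y j = a
    have hIJ : ∀ j ∈ I, j ∈ J := fun j hj => by
      simp only [J, Finset.mem_filter, Finset.mem_univ, true_and]
      exact haI j hj
    have hJ : Ind v J := by
      apply hG
      intro c hc
      obtain ⟨c0, c1, c2⟩ := hc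
      have h1 : ∀ j, c j * (ω j : ℚ) = c j * a - ∑ i, w i * (c j * (v j i : ℚ)) := by
        intro j
        by_cases hj : j ∈ J
        · have h2 : y j = a := by simpa [J] using hj
          have h3 : (ω j : ℚ) = a - ∑ i, w i * (v j i : ℚ) := by
            rw [← h2]
            simp only [y]
            ring
          rw [h3, mul_sub, Finset.mul_sum]
          congr 1
          exact Finset.sum_congr rfl fun i _ => by ring
        · rw [c0 j hj]
          simp
      rw [Finset.sum_congr rfl fun j _ => h1 j, Finset.sum_sub_distrib, ← Finset.sum_mul, c1,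
        zero_mul, Finset.sum_comm]
      have h2 : ∀ i, ∑ j, w i * (c j * (v j i : ℚ)) = 0 := by
        intro i
        rw [← Finset.mul_sum, c2 i, mul_zero]
      rw [Finset.sum_congr rfl fun i _ => h2 i]
      simp
    obtain ⟨w', a', hw'⟩ := forms_surj hJ (fun j => if j ∈ I then 0 else 1)
    obtain ⟨ε, hε, hε2⟩ := small_eps (ι := Fin N ⊕ {j : Fin r // j ∉ J})
      (Sum.elim (fun i => w i) (fun j => y j - a))
      (Sum.elim (fun i => w' i) (fun j => ∑ i, w' i * (v j i : ℚ) - a')) (by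
        rintro (i | ⟨j, hj⟩)
        · have := hw i
          simp only [Sum.elim_inl]
          linarith
        · have h1 : y j ≠ a := fun h => hj (by simp [J, h])
          have h2 := ha j
          have h3 : a < y j := lt_of_le_of_ne h2 (Ne.symm h1)
          simp only [Sum.elim_inr]
          linarith)
    have e1 : ∀ j, ∑ i, (w i + ε * w' i) * (v j i : ℚ) + (ω j : ℚ) =
        y j + ε * (∑ i, w' i * (v j i : ℚ)) := by
      intro j
      simp only [y, add_mul, Finset.sum_add_distrib, Finset.mul_sum, mul_assoc]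
      ring
    have hWpos : ∀ i, 0 < w i + ε * w' i := fun i => hε2 (Sum.inl i)
    refine ⟨fun i => w i + ε * w' i, a + ε * a', ?_, ?_, ?_⟩
    · have h1 := haI j0 hj0
      have h2 := hw' j0 (hIJ j0 hj0)
      rw [if_pos hj0] at h2
      have h3 : a + ε * a' = ∑ i, (w i + ε * w' i) * (v j0 i : ℚ) + (ω j0 : ℚ) := by
        rw [e1]
        have h4 : y j0 = a := h1
        rw [h4]
        have h5 : a' = ∑ i, w' i * (v j0 i : ℚ) := by linarith
        rw [h5]
      rw [h3]
      have h6 := pos_sum (hv j0) hWpos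
      have h7 : (0 : ℚ) ≤ (ω j0 : ℚ) := Nat.cast_nonneg _
      linarith
    · intro j hj
      have h2 := hw' j (hIJ j hj)
      rw [if_pos hj] at h2
      have h4 : y j = a := haI j hj
      rw [e1, h4]
      have h5 : a' = ∑ i, w' i * (v j i : ℚ) := by linarith
      rw [h5]
    · intro j hj
      rw [e1]
      by_cases hjJ : j ∈ J
      · have h2 := hw' j hjJ
        rw [if_neg hj] at h2
        have h4 : y j = a := by simpa [J] using hjJ
        have h5 : ∑ i, w' i * (v j i : ℚ) = a' + 1 := by linarith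
        rw [h4, h5]
        linarith
      · have h2 := hε2 (Sum.inr ⟨j, hjJ⟩)
        simp only [Sum.elim_inr] at h2
        have h3 : ε * (∑ i, w' i * (v j i : ℚ) - a') =
            ε * (∑ i, w' i * (v j i : ℚ)) - ε * a' := by ring
        linarith

theorem t_ZPT : S_ZPT := by
  classical
  intro r N v ω hv hG
  have key : ∀ I : Finset (Fin r), ∃ ρ0 : ℕ, ∀ ρ, ρ0 ≤ ρ →
      (TT v ω I → ∃ (zw : Fin N → ℚ) (za : ℚ), (∀ i, zw i < 0) ∧ 0 < za ∧
        (∀ j ∈ I, ∑ i, zw i * (v j i : ℚ) + (hts v ω ρ j : ℚ) = za) ∧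
        ∀ j, j ∉ I → za < ∑ i, zw i * (v j i : ℚ) + (hts v ω ρ j : ℚ)) ∧
      (¬ TT v ω I → ∀ (m : ℕ) (x : Fin N → ℕ) (t : ℕ), 0 < m →
        (∀ j, t ≤ ∑ i, x i * v j i + m * hts v ω ρ j) →
        ¬ ∀ j ∈ I, ∑ i, x i * v j i + m * hts v ω ρ j = t) := by
    intro I
    by_cases hI : TT v ω I
    · obtain ⟨W, za, h0, h1, h2⟩ := tt_case hv hG hI
      obtain ⟨n, hn⟩ := big_nat W
      refine ⟨n, fun ρ hρ => ⟨fun _ => ⟨fun i => W i - ρ, za, ?_, h0, ?_, ?_⟩,
        fun h => absurd hI h⟩⟩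
      · intro i
        have h3 := hn i
        have h4 : (n : ℚ) ≤ ρ := by exact_mod_cast hρ
        linarith
      · intro j hj
        rw [hts_sum]
        exact h1 j hj
      · intro j hj
        rw [hts_sum]
        exact h2 j hj
    · have hI' := hI
      unfold TT at hI'
      push Not at hI'
      obtain ⟨ρ1, hρ1⟩ := hI'
      obtain ⟨n, hn⟩ := exists_nat_gt ρ1
      refine ⟨n, fun ρ hρ => ⟨fun h => absurd h hI, fun _ m x t hm ht heq => ?_⟩⟩
      have hmQ : (0 : ℚ) < m := by exact_mod_cast hm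
      have e1 : ∀ j, ∑ i, ((x i : ℚ) / m + ρ) * (v j i : ℚ) + (ω j : ℚ) =
          ((∑ i, x i * v j i + m * hts v ω ρ j : ℕ) : ℚ) / m := by
        intro j
        unfold hts
        push_cast
        rw [eq_div_iff hmQ.ne']
        simp only [add_mul, Finset.sum_add_distrib, ← Finset.mul_sum]
        have e2 : (∑ i, (x i : ℚ) / m * (v j i : ℚ)) * m = ∑ i, (x i : ℚ) * (v j i : ℚ) := by
          rw [Finset.sum_mul]
          refine Finset.sum_congr rfl fun i _ => ?_
          field_simp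
        rw [e2]
        ring
      obtain ⟨j, hjI, hj⟩ := hρ1 (fun i => (x i : ℚ) / m + ρ) ((t : ℚ) / m) (by
        intro i
        have h1 : (0 : ℚ) ≤ (x i : ℚ) / m := by positivity
        have h2 : (n : ℚ) ≤ ρ := by exact_mod_cast hρ
        linarith) (by
        intro j
        rw [e1]
        have h1 : (t : ℚ) ≤ ((∑ i, x i * v j i + m * hts v ω ρ j : ℕ) : ℚ) := by
          exact_mod_cast ht j
        exact div_le_div_of_nonneg_right h1 hmQ.le)
      apply hj
      rw [e1, heq j hjI]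
  choose f hf using key
  refine ⟨Finset.univ.sup f, fun ρ hρ => ⟨fun I hI => (hf I ρ ?_).1 hI,
    fun I hI => (hf I ρ ?_).2 hI⟩⟩
  · exact (Finset.le_sup (f := f) (Finset.mem_univ I)).trans hρ
  · exact (Finset.le_sup (f := f) (Finset.mem_univ I)).trans hρ

end Pool.Agent.Y688.HX
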